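import Pool.Agent.Helper22.Berk.Compact

/-!
# The tropical polynomial of `P - yQ` for a Berkovich point `y`
-/

open Polynomial Topology
open Pool.Agent.Helper17.Berk

namespace Pool.Agent.Helper22.Berk

universe u
variable {K : Type u} [NontriviallyNormedField K]

/-- tropical polynomial of `P - yQ` at the centre `a`. -/
noncomputable def cy (f : RatMap K) (a : K) (y : Berk K) : ℕ → ℝ :=
  fun i => y (C ((taylor a f.P).coeff i) - X * C ((taylor a f.Q).coeff i))

/-- the same on the projective line (at `∞`: the tropical polynomial of `Q`). -/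
noncomputable def cP (f : RatMap K) (a : K) : P1 K → ℕ → ℝ
  | OnePoint.infty => co f.Q a
  | OnePoint.some y => cy f a y

@[simp] theorem cP_infty (f : RatMap K) (a : K) : cP f a (OnePoint.infty : P1 K) = co f.Q a := rfl
@[simp] theorem cP_coe (f : RatMap K) (a : K) (y : Berk K) : cP f a (y : P1 K) = cy f a y := rfl

theorem cy_pt [IsUltrametricDist K] (f : RatMap K) (a w : K) :
    cy f a (pt w) = co (f.P - C w * f.Q) a := by
  funext i
  simp only [cy, co, pt]
  congr 1
  simp only [eval_sub, eval_mul, eval_C, eval_X, map_sub, taylor_mul, taylor_C, coeff_sub,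
    coeff_C_mul]

theorem Q_ne_zero (f : RatMap K) (hf : 1 ≤ f.deg) : f.Q ≠ 0 := by
  intro h
  have hc := f.cop
  rw [h, isCoprime_zero_right] at hc
  have h1 := natDegree_eq_zero_of_isUnit hc
  rw [RatMap.deg, h1, h] at hf
  simp at hf

theorem sub_ne_zero (f : RatMap K) (hf : 1 ≤ f.deg) (w : K) : f.P - C w * f.Q ≠ 0 := by
  intro h
  have h1 : f.P = C w * f.Q := sub_eq_zero.1 h
  have hc := f.cop
  rw [h1] at hc
  have h2 : IsUnit f.Q := by
    have h3 : IsCoprime f.Q f.Q := hc.of_mul_left_right
    exact isCoprime_self.1 h3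
  have h4 := natDegree_eq_zero_of_isUnit h2
  have h5 : f.P.natDegree ≤ 0 := by
    rw [h1]
    refine natDegree_mul_le.trans ?_
    rw [natDegree_C, h4]
  rw [RatMap.deg, h4] at hf
  omega

theorem taylor_coeff_eq_zero {F : K[X]} {a : K} {i : ℕ} (h : F.natDegree < i) :
    (taylor a F).coeff i = 0 := by
  apply coeff_eq_zero_of_natDegree_lt
  rwa [natDegree_taylor]

theorem cy_eq_zero (f : RatMap K) (a : K) (y : Berk K) {i : ℕ} (hi : f.deg < i) :
    cy f a y i = 0 := by
  have h1 : f.P.natDegree < i := lt_of_le_of_lt (le_max_left _ _) hi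
  have h2 : f.Q.natDegree < i := lt_of_le_of_lt (le_max_right _ _) hi
  simp [cy, taylor_coeff_eq_zero h1, taylor_coeff_eq_zero h2]

theorem co_Q_eq_zero (f : RatMap K) (a : K) {i : ℕ} (hi : f.deg < i) : co f.Q a i = 0 := by
  have h2 : f.Q.natDegree < i := lt_of_le_of_lt (le_max_right _ _) hi
  simp [co, taylor_coeff_eq_zero h2]

theorem cP_eq_zero (f : RatMap K) (a : K) (y : P1 K) {i : ℕ} (hi : f.deg < i) :
    cP f a y i = 0 := by
  induction y using OnePoint.rec with
  | infty => exact co_Q_eq_zero f a hi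
  | coe y => exact cy_eq_zero f a y hi

theorem cy_nonneg (f : RatMap K) (a : K) (y : Berk K) (i : ℕ) : 0 ≤ cy f a y i := y.nonneg _

theorem TP_cy (f : RatMap K) (hf : 1 ≤ f.deg) (a : K) (y : Berk K) : TP (cy f a y) := by
  refine ⟨fun i => y.nonneg _, ⟨f.deg, fun i hi => cy_eq_zero f a y hi⟩, ?_⟩
  by_contra hcon
  push Not at hcon
  have h0 : ∀ i, y (C ((taylor a f.P).coeff i) - X * C ((taylor a f.Q).coeff i)) = 0 :=
    fun i => le_antisymm (hcon i) (y.nonneg _)
  have hQ := Q_ne_zero f hf
  have hQt : taylor a f.Q ≠ 0 := by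
    intro h
    exact hQ (taylor_injective a (by simpa using h))
  obtain ⟨i₀, hi₀⟩ : ∃ i, (taylor a f.Q).coeff i ≠ 0 := by
    by_contra hc
    push Not at hc
    exact hQt (Polynomial.ext fun i => by simp [hc i])
  set p := (taylor a f.P).coeff i₀ with hp
  set q := (taylor a f.Q).coeff i₀ with hq
  set w := p / q with hw
  have h1 : y (X - C w) = 0 := by
    have e : C p - X * C q = C (-q) * (X - C w) := by
      have : p = q * w := by rw [hw]; field_simp
      rw [this]
      simp only [C_mul, C_neg]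
      ring
    have h2 := h0 i₀
    rw [← hp, ← hq, e, Berk.map_mul, Berk.map_C, norm_neg] at h2
    rcases mul_eq_zero.1 h2 with h3 | h3
    · exact absurd (norm_eq_zero.1 h3) hi₀
    · exact h3
  have h2 : ∀ i, (taylor a f.P).coeff i = w * (taylor a f.Q).coeff i := by
    intro i
    have e : C ((taylor a f.P).coeff i - w * (taylor a f.Q).coeff i) =
        (C ((taylor a f.P).coeff i) - X * C ((taylor a f.Q).coeff i)) +
          (X - C w) * C ((taylor a f.Q).coeff i) := by
      simp only [C_sub, C_mul]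
      ring
    have h3 : ‖(taylor a f.P).coeff i - w * (taylor a f.Q).coeff i‖ ≤ 0 := by
      rw [← Berk.map_C y, e]
      refine (y.map_add_le _ _).trans ?_
      rw [h0 i, Berk.map_mul, h1]
      simp
    have h4 := norm_le_zero_iff.1 h3
    linear_combination h4
  have h3 : taylor a f.P = taylor a (C w * f.Q) := by
    ext i
    rw [h2 i, taylor_mul]
    simp [coeff_C_mul]
  have h4 : f.P = C w * f.Q := taylor_injective a h3
  exact sub_ne_zero f hf w (by rw [h4]; ring)

theorem TP_cP (f : RatMap K) (hf : 1 ≤ f.deg) (a : K) (y : P1 K) : TP (cP f a y) := by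
  induction y using OnePoint.rec with
  | infty => exact TP_co (Q_ne_zero f hf) a
  | coe y => exact TP_cy f hf a y

/-- `tv` as a finite maximum. -/
theorem tv_eq_sup' {g : ℕ → ℝ} (hg : TP g) {N : ℕ} (hN : ∀ i, N < i → g i = 0) {t : ℝ}
    (_ : 0 ≤ t) : tv g t = (Finset.range (N + 1)).sup' ⟨0, by simp⟩ (fun i => g i * t ^ i) := by
  apply le_antisymm
  · refine ciSup_le fun i => ?_
    by_cases hi : i ≤ N
    · exact Finset.le_sup' (fun i => g i * t ^ i) (by simp; omega)
    · rw [hN i (by omega), zero_mul]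
      refine le_trans ?_ (Finset.le_sup' (fun i => g i * t ^ i) (b := 0) (by simp))
      simpa using hg.nonneg 0
  · exact Finset.sup'_le _ _ fun i _ => le_tv hg t i

theorem continuous_tv_cy (f : RatMap K) (hf : 1 ≤ f.deg) (a : K) {t : ℝ} (ht : 0 ≤ t) :
    Continuous fun y : Berk K => tv (cy f a y) t := by
  have : (fun y : Berk K => tv (cy f a y) t) = fun y =>
      (Finset.range (f.deg + 1)).sup' ⟨0, by simp⟩ (fun i => cy f a y i * t ^ i) := by
    funext y
    exact tv_eq_sup' (TP_cy f hf a y) (fun i hi => cy_eq_zero f a y hi) ht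
  rw [this]
  refine Continuous.finset_sup'_apply _ fun i _ => ?_
  exact (Berk.continuous_eval _).mul continuous_const

/-- ultrametric: the larger summand wins. -/
theorem map_sub_eq_of_lt (y : Berk K) {F G : K[X]} (h : y F < y G) : y (F - G) = y G := by
  apply le_antisymm
  · exact (y.map_sub_le F G).trans (max_le h.le le_rfl)
  · by_contra hcon
    push Not at hcon
    have h1 : y G ≤ max (y F) (y (F - G)) := by
      have := y.map_sub_le F (F - G)
      simpa using this
    rcases le_max_iff.1 h1 with h2 | h2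
    · exact absurd h2 (not_le.2 h)
    · exact absurd h2 (not_le.2 hcon)

theorem tv_cy_large (f : RatMap K) (hf : 1 ≤ f.deg) (a : K) {t : ℝ} (ht : 0 < t) :
    ∃ M : ℝ, ∀ y : Berk K, M < y X → tv (cy f a y) t = y X * tv (co f.Q a) t := by
  classical
  have hQ := TP_co (Q_ne_zero f hf) a
  have hpos : 0 < tv (co f.Q a) t := tv_pos hQ ht
  set p := fun i => (taylor a f.P).coeff i with hp
  set q := fun i => (taylor a f.Q).coeff i with hq
  refine ⟨∑ i ∈ Finset.range (f.deg + 1), (‖p i‖ / ‖q i‖ + ‖p i‖ * t ^ i / tv (co f.Q a) t),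
    fun y hy => ?_⟩
  have hterm : ∀ i ∈ Finset.range (f.deg + 1),
      ‖p i‖ / ‖q i‖ + ‖p i‖ * t ^ i / tv (co f.Q a) t < y X := by
    intro i hi
    refine lt_of_le_of_lt ?_ hy
    exact Finset.single_le_sum (f := fun i => ‖p i‖ / ‖q i‖ + ‖p i‖ * t ^ i / tv (co f.Q a) t)
      (fun j _ => by positivity) hi
  have hy0 : 0 < y X := by
    refine lt_of_le_of_lt ?_ (hterm 0 (by simp))
    positivity
  have hval : ∀ i ∈ Finset.range (f.deg + 1), q i ≠ 0 → cy f a y i = y X * ‖q i‖ := by
    intro i hi hqi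
    have hlt : ‖p i‖ / ‖q i‖ < y X := by
      refine lt_of_le_of_lt ?_ (hterm i hi)
      have : 0 ≤ ‖p i‖ * t ^ i / tv (co f.Q a) t := by positivity
      linarith
    have hqpos : 0 < ‖q i‖ := norm_pos_iff.2 hqi
    have h1 : y (C (p i)) < y (X * C (q i)) := by
      rw [Berk.map_mul, Berk.map_C, Berk.map_C]
      rwa [div_lt_iff₀ hqpos] at hlt
    have := map_sub_eq_of_lt y h1
    rw [Berk.map_mul, Berk.map_C] at this
    exact this
  have hval0 : ∀ i ∈ Finset.range (f.deg + 1), q i = 0 →
      cy f a y i * t ^ i ≤ y X * tv (co f.Q a) t := by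
    intro i hi hqi
    have hlt : ‖p i‖ * t ^ i / tv (co f.Q a) t < y X := by
      refine lt_of_le_of_lt ?_ (hterm i hi)
      have : 0 ≤ ‖p i‖ / ‖q i‖ := by positivity
      linarith
    have e : cy f a y i = ‖p i‖ := by
      change y (C (p i) - X * C (q i)) = _
      rw [hqi]; simp
    rw [e]
    rw [div_lt_iff₀ hpos] at hlt
    exact hlt.le
  apply le_antisymm
  · refine ciSup_le fun i => ?_
    by_cases hi : i ∈ Finset.range (f.deg + 1)
    · by_cases hqi : q i = 0
      · exact hval0 i hi hqi
      · rw [hval i hi hqi, mul_assoc]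
        exact mul_le_mul_of_nonneg_left (le_tv hQ t i) hy0.le
    · have : f.deg < i := by simpa [Nat.lt_succ_iff] using hi
      rw [cy_eq_zero f a y this, zero_mul]
      positivity
  · obtain ⟨i, hi⟩ := exists_eq_tv hQ t ht.le
    have hqi : q i ≠ 0 := by
      intro h
      have : co f.Q a i = 0 := by simp only [co]; rw [← hq] at *; simpa using h
      rw [this, zero_mul] at hi
      exact hpos.ne hi
    have hir : i ∈ Finset.range (f.deg + 1) := by
      by_contra hc
      have : f.deg < i := by simpa [Nat.lt_succ_iff] using hc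
      have h0 := co_Q_eq_zero f a this
      rw [h0, zero_mul] at hi
      exact hpos.ne hi
    rw [← hi, ← mul_assoc]
    have h2 := hval i hir hqi
    have h3 : co f.Q a i = ‖q i‖ := rfl
    rw [h3, ← h2]
    exact le_tv (TP_cy f hf a y) t i

end Pool.Agent.Helper22.Berk
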