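import Mathlib

/-!
# Baire sets and uniqueness of measures on them

The `σ`-algebra generated by the continuous real functions on a topological space, and: two finite
Borel measures with the same integrals of bounded continuous functions agree on it.
-/

open MeasureTheory Filter Topology

namespace Pool.Agent.Helper22.Berk

variable {X : Type*} [TopologicalSpace X]

/-- The generating family: the cozero sets. -/
def cozero (X : Type*) [TopologicalSpace X] : Set (Set X) :=
  {S | ∃ g : C(X, ℝ), (∀ x, 0 ≤ g x ∧ g x ≤ 1) ∧ S = {x | 0 < g x}}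

/-- The Baire `σ`-algebra. -/
@[reducible] def baire (X : Type*) [TopologicalSpace X] : MeasurableSpace X :=
  MeasurableSpace.generateFrom (cozero X)

/-- `S` is a Baire set. -/
def IsBaire (S : Set X) : Prop := MeasurableSet[baire X] S

theorem cozero_univ : Set.univ ∈ cozero X :=
  ⟨1, fun x => ⟨by simp, by simp⟩, by ext; simp⟩

theorem isPiSystem_cozero : IsPiSystem (cozero X) := by
  rintro _ ⟨g, hg, rfl⟩ _ ⟨h, hh, rfl⟩ -
  refine ⟨g ⊓ h, fun x => ⟨?_, ?_⟩, ?_⟩
  · simp only [ContinuousMap.inf_apply]; exact le_inf (hg x).1 (hh x).1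
  · simp only [ContinuousMap.inf_apply]; exact inf_le_left.trans (hg x).2
  · ext x
    simp [lt_inf_iff]

theorem IsBaire.of_cozero {S : Set X} (h : S ∈ cozero X) : IsBaire S :=
  MeasurableSpace.measurableSet_generateFrom h

theorem IsBaire.univ : IsBaire (Set.univ : Set X) := @MeasurableSet.univ _ (baire X)
theorem IsBaire.empty : IsBaire (∅ : Set X) := @MeasurableSet.empty _ (baire X)
theorem IsBaire.compl {S : Set X} (h : IsBaire S) : IsBaire Sᶜ := MeasurableSet.compl h
theorem IsBaire.inter {S T : Set X} (h : IsBaire S) (h' : IsBaire T) : IsBaire (S ∩ T) :=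
  MeasurableSet.inter h h'
theorem IsBaire.union {S T : Set X} (h : IsBaire S) (h' : IsBaire T) : IsBaire (S ∪ T) :=
  MeasurableSet.union h h'
theorem IsBaire.diff {S T : Set X} (h : IsBaire S) (h' : IsBaire T) : IsBaire (S \ T) :=
  MeasurableSet.diff h h'
theorem IsBaire.iUnion {ι : Type*} [Countable ι] {S : ι → Set X} (h : ∀ i, IsBaire (S i)) :
    IsBaire (⋃ i, S i) := MeasurableSet.iUnion h
theorem IsBaire.iInter {ι : Type*} [Countable ι] {S : ι → Set X} (h : ∀ i, IsBaire (S i)) :
    IsBaire (⋂ i, S i) := MeasurableSet.iInter h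

theorem IsBaire.biUnion_finset {ι : Type*} {s : Finset ι} {S : ι → Set X}
    (h : ∀ i ∈ s, IsBaire (S i)) : IsBaire (⋃ i ∈ s, S i) :=
  Finset.measurableSet_biUnion s h

/-- `{0 < g}` for a continuous function. -/
theorem isBaire_pos {g : X → ℝ} (hg : Continuous g) : IsBaire {x | 0 < g x} := by
  refine IsBaire.of_cozero ⟨⟨fun x => max 0 (min 1 (g x)), by fun_prop⟩, fun x => ⟨?_, ?_⟩, ?_⟩
  · exact le_max_left _ _
  · exact max_le zero_le_one (min_le_left _ _)
  · ext x
    simp

theorem isBaire_lt {g h : X → ℝ} (hg : Continuous g) (hh : Continuous h) :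
    IsBaire {x | g x < h x} := by
  have : {x | g x < h x} = {x | 0 < h x - g x} := by ext x; simp
  rw [this]
  exact isBaire_pos (hh.sub hg)

theorem isBaire_le {g h : X → ℝ} (hg : Continuous g) (hh : Continuous h) :
    IsBaire {x | g x ≤ h x} := by
  have : {x | g x ≤ h x} = {x | h x < g x}ᶜ := by ext x; simp
  rw [this]
  exact (isBaire_lt hh hg).compl

theorem IsBaire.preimage {Y : Type*} [TopologicalSpace Y] {F : X → Y} (hF : Continuous F)
    {S : Set Y} (hS : IsBaire S) : IsBaire (F ⁻¹' S) := by
  have h : Measurable[baire X, baire Y] F := by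
    refine @measurable_generateFrom _ _ (baire X) _ _ ?_
    rintro _ ⟨g, -, rfl⟩
    have : F ⁻¹' {x | 0 < g x} = {x | 0 < g (F x)} := rfl
    rw [this]
    exact isBaire_pos (g.continuous.comp hF)
  exact h hS

theorem baire_le_borel [MeasurableSpace X] [BorelSpace X] : baire X ≤ (inferInstance : MeasurableSpace X) := by
  refine MeasurableSpace.generateFrom_le ?_
  rintro _ ⟨g, -, rfl⟩
  exact (isOpen_lt continuous_const g.continuous).measurableSet

theorem IsBaire.measurableSet [MeasurableSpace X] [BorelSpace X] {S : Set X} (h : IsBaire S) :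
    MeasurableSet S := baire_le_borel _ h

variable [MeasurableSpace X] [BorelSpace X]

/-- uniqueness on Baire sets. -/
theorem measure_eq_of_integral_eq {μ ν : Measure X} [IsFiniteMeasure μ] [IsFiniteMeasure ν]
    (h : ∀ g : C(X, ℝ), (∀ x, 0 ≤ g x ∧ g x ≤ 1) → ∫ x, g x ∂μ = ∫ x, g x ∂ν)
    {S : Set X} (hS : IsBaire S) : μ S = ν S := by
  have key : ∀ T ∈ cozero X, μ T = ν T := by
    rintro _ ⟨g, hg, rfl⟩
    have hlim : ∀ (κ : Measure X) [IsFiniteMeasure κ],
        Tendsto (fun n : ℕ => ∫ x, min 1 ((n : ℝ) * g x) ∂κ) atTop (𝓝 (κ.real {x | 0 < g x})) := by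
      intro κ _
      have hm : MeasurableSet {x | 0 < g x} :=
        (isOpen_lt continuous_const g.continuous).measurableSet
      have e : κ.real {x | 0 < g x} = ∫ x, ({x | 0 < g x}.indicator (fun _ => (1:ℝ))) x ∂κ := by
        rw [integral_indicator hm]; simp
      rw [e]
      refine tendsto_integral_of_dominated_convergence (fun _ => (1:ℝ)) ?_ ?_ ?_ ?_
      · intro n
        exact ((continuous_const.min (continuous_const.mul g.continuous)).measurable).aestronglyMeasurable
      · exact integrable_const _
      · intro n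
        refine ae_of_all _ fun x => ?_
        have h0 : 0 ≤ (n:ℝ) * g x := mul_nonneg (Nat.cast_nonneg _) (hg x).1
        rw [Real.norm_eq_abs, abs_of_nonneg (le_min zero_le_one h0)]
        exact min_le_left _ _
      · refine ae_of_all _ fun x => ?_
        by_cases hx : 0 < g x
        · rw [Set.indicator_of_mem (show x ∈ {x | 0 < g x} from hx)]
          obtain ⟨N, hN⟩ := exists_nat_ge (1 / g x)
          refine tendsto_const_nhds.congr' ?_
          filter_upwards [eventually_ge_atTop N] with n hn
          have h1 : 1 ≤ (n:ℝ) * g x := by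
            rw [div_le_iff₀ hx] at hN
            have : (N:ℝ) ≤ n := by exact_mod_cast hn
            nlinarith
          rw [min_eq_left h1]
        · rw [Set.indicator_of_notMem (show x ∉ {x | 0 < g x} from hx)]
          have h0 : g x = 0 := le_antisymm (not_lt.1 hx) (hg x).1
          simp [h0]
    have h1 := hlim μ
    have h2 := hlim ν
    have h3 : (fun n : ℕ => ∫ x, min 1 ((n : ℝ) * g x) ∂μ) =
        fun n : ℕ => ∫ x, min 1 ((n : ℝ) * g x) ∂ν := by
      funext n
      refine h ⟨fun x => min 1 ((n : ℝ) * g x), by fun_prop⟩ fun x => ⟨?_, min_le_left _ _⟩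
      exact le_min zero_le_one (mul_nonneg (Nat.cast_nonneg _) (hg x).1)
    rw [h3] at h1
    have h4 := tendsto_nhds_unique h1 h2
    rw [Measure.real, Measure.real, ENNReal.toReal_eq_toReal_iff' (measure_ne_top _ _)
      (measure_ne_top _ _)] at h4
    exact h4
  have huniv : μ Set.univ = ν Set.univ := key _ cozero_univ
  have hle : baire X ≤ (inferInstance : MeasurableSpace X) := baire_le_borel
  have := ext_on_measurableSpace_of_generate_finite (m₀ := (inferInstance : MeasurableSpace X))
    (cozero X) key hle rfl isPiSystem_cozero huniv hS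
  exact this

end Pool.Agent.Helper22.Berk
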