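import Pool.Agent.Helper22.Berk.Ramp
import Pool.Agent.Helper22.Berk.Baire

/-!
# Transfer formula for discs (MP_160e9b_an)

For an equilibrium measure `ρ` of `f`, `deg f * ρ (D ∩ f⁻¹ S) = ∫_S N(y, D) dρ(y)` for open and
closed discs `D` and Baire sets `S`.
-/

open Polynomial Topology MeasureTheory Filter
open Pool.Agent.Helper17.Berk

namespace Pool.Agent.Helper22.Berk

universe u
variable {K : Type u} [NontriviallyNormedField K] [IsUltrametricDist K] [IsAlgClosed K]

/-- The properties of the action used here. -/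
structure ActOK (f : RatMap K) : Prop where
  cont : Continuous f.act
  fib : ∀ w : OnePoint K, ∀ z ∈ f.fib w, f.act (emb z) = emb w

theorem integrable_of_continuous {ρ : Measure (P1 K)} [IsFiniteMeasure ρ] {g : P1 K → ℝ}
    (hg : Continuous g) : Integrable g ρ := by
  obtain ⟨C, hC⟩ := (isCompact_univ (X := P1 K)).exists_bound_of_continuousOn hg.continuousOn
  exact Integrable.of_bound hg.measurable.aestronglyMeasurable C
    (ae_of_all _ fun x => hC x (Set.mem_univ _))

/-- the pull-back identity for ramps; it holds for an equilibrium measure and all iterates. -/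
def WPull (f : RatMap K) (ρ : Measure (P1 K)) : Prop :=
  ∀ (ψ : C(P1 K, ℝ)) (a : K) (t₀ t₁ : ℝ), 0 < t₀ → t₀ < t₁ →
    ∫ y, ψ y * push f a t₀ t₁ y ∂ρ = f.deg * ∫ x, ψ (f.act x) * ramp a t₀ t₁ x ∂ρ

/-- the basic identity with ramps. -/
theorem WPull.of_isEquilibrium (f : RatMap K) (hf : 1 ≤ f.deg) (hA : ActOK f)
    {ρ : Measure (P1 K)} (hρ : f.IsEquilibrium ρ) : WPull f ρ := by
  intro ψ a t₀ t₁ h0 h01
  refine hρ.pull ⟨fun x => ψ (f.act x) * ramp a t₀ t₁ x, ?_⟩ ⟨fun y => ψ y * push f a t₀ t₁ y, ?_⟩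
    fun w => ?_
  · exact (ψ.continuous.comp hA.cont).mul (continuous_ramp a h0 h01)
  · exact ψ.continuous.mul (continuous_push f hf a h0 h01)
  · simp only [ContinuousMap.coe_mk]
    rw [← sum_fib_ramp f hf a h0 h01 w, ← Multiset.sum_map_mul_left]
    congr 1
    refine Multiset.map_congr rfl fun z hz => ?_
    rw [hA.fib w z hz]

/-- composition: the outer map is the one for which `ρ` is the equilibrium measure. -/
theorem WPull.comp {f g : RatMap K} (hf : 1 ≤ f.deg) (hg : 1 ≤ g.deg)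
    (hfg : 1 ≤ (f.comp g).deg) (hA : ActOK f)
    (hact : ∀ x, (f.comp g).act x = f.act (g.act x))
    (hfib : ∀ w, (f.comp g).fib w = (f.fib w).bind g.fib)
    (hdeg : (f.comp g).deg = f.deg * g.deg) {ρ : Measure (P1 K)}
    (hρ : f.IsEquilibrium ρ) (h : WPull g ρ) : WPull (f.comp g) ρ := by
  intro ψ a t₀ t₁ h0 h01
  have h1 := hρ.pull ⟨fun x => ψ (f.act x) * push g a t₀ t₁ x,
    (ψ.continuous.comp hA.cont).mul (continuous_push g hg a h0 h01)⟩
    ⟨fun y => ψ y * push (f.comp g) a t₀ t₁ y,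
      ψ.continuous.mul (continuous_push (f.comp g) hfg a h0 h01)⟩ (fun w => ?_)
  · simp only [ContinuousMap.coe_mk] at h1
    rw [h1]
    have h2 := h (ψ.comp ⟨f.act, hA.cont⟩) a t₀ t₁ h0 h01
    simp only [ContinuousMap.comp_apply, ContinuousMap.coe_mk] at h2
    rw [h2, hdeg]
    simp only [hact]
    push_cast
    ring
  · simp only [ContinuousMap.coe_mk]
    rw [← sum_fib_ramp (f.comp g) hfg a h0 h01 w, hfib, Multiset.map_bind, Multiset.sum_bind,
      ← Multiset.sum_map_mul_left]
    congr 1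
    refine Multiset.map_congr rfl fun z hz => ?_
    rw [hA.fib w z hz, ← sum_fib_ramp g hg a h0 h01 z]

theorem lo_cP_le (f : RatMap K) (hf : 1 ≤ f.deg) (a : K) {t : ℝ} (ht : 0 < t) (y : P1 K) :
    lo (cP f a y) t ≤ f.deg := by
  by_contra hcon
  push Not at hcon
  have h1 := lo_spec (TP_cP f hf a y) ht.le
  rw [cP_eq_zero f a y hcon, zero_mul] at h1
  exact (tv_pos (TP_cP f hf a y) ht).ne h1

theorem hi_cP_le (f : RatMap K) (hf : 1 ≤ f.deg) (a : K) {t : ℝ} (ht : 0 < t) (y : P1 K) :
    hi (cP f a y) t ≤ f.deg := by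
  by_contra hcon
  push Not at hcon
  have h1 := hi_spec (TP_cP f hf a y) ht
  rw [cP_eq_zero f a y hcon, zero_mul] at h1
  exact (tv_pos (TP_cP f hf a y) ht).ne h1

theorem push_nonneg (f : RatMap K) (hf : 1 ≤ f.deg) (a : K) {t₀ t₁ : ℝ} (h0 : 0 < t₀)
    (h01 : t₀ < t₁) (y : P1 K) : 0 ≤ push f a t₀ t₁ y := by
  refine div_nonneg (sub_nonneg.2 ?_) (sub_nonneg.2 (Real.log_le_log h0 h01.le))
  exact Real.log_le_log (tv_pos (TP_cP f hf a y) h0) (tv_mono (TP_cP f hf a y) h0.le h01.le)

theorem push_le (f : RatMap K) (hf : 1 ≤ f.deg) (a : K) {t₀ t₁ : ℝ} (h0 : 0 < t₀)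
    (h01 : t₀ < t₁) (y : P1 K) : push f a t₀ t₁ y ≤ f.deg := by
  have hg := TP_cP f hf a y
  have h1 := h0.trans h01
  have hl := Real.log_lt_log h0 h01
  rw [push, div_le_iff₀ (by linarith)]
  have h2 := tv_growth_lo hg h0 h01.le
  have h3 := Real.log_le_log (tv_pos hg h1) h2
  rw [Real.log_mul (tv_pos hg h0).ne' (by positivity), Real.log_pow,
    Real.log_div h1.ne' h0.ne'] at h3
  have h4 : (lo (cP f a y) t₁ : ℝ) ≤ f.deg := by exact_mod_cast lo_cP_le f hf a h1 y
  have h5 : (lo (cP f a y) t₁ : ℝ) * (Real.log t₁ - Real.log t₀) ≤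
      f.deg * (Real.log t₁ - Real.log t₀) := mul_le_mul_of_nonneg_right h4 (by linarith)
  linarith

theorem push_eq_of_hi_eq_lo (f : RatMap K) (hf : 1 ≤ f.deg) (a : K) {t₀ t₁ : ℝ} (h0 : 0 < t₀)
    (h01 : t₀ < t₁) (y : P1 K) (h : hi (cP f a y) t₀ = lo (cP f a y) t₁) :
    push f a t₀ t₁ y = hi (cP f a y) t₀ := by
  have hg := TP_cP f hf a y
  have h1 := h0.trans h01
  have hl := Real.log_lt_log h0 h01
  have h2 := tv_eq_of_hi_eq_lo hg h0 h01.le h
  rw [push, h2, Real.log_mul (tv_pos hg h0).ne' (by positivity), Real.log_pow,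
    Real.log_div h1.ne' h0.ne']
  have h3 : Real.log t₁ - Real.log t₀ ≠ 0 := by linarith
  field_simp
  ring

/-- approximating radii from below. -/
noncomputable def below (t : ℝ) (n : ℕ) : ℝ := t * (1 - 1 / ((n : ℝ) + 2))

/-- approximating radii from above. -/
noncomputable def above (t : ℝ) (n : ℕ) : ℝ := t * (1 + 1 / ((n : ℝ) + 1))

theorem below_pos {t : ℝ} (ht : 0 < t) (n : ℕ) : 0 < below t n := by
  have h : 1 / ((n : ℝ) + 2) < 1 := by
    rw [div_lt_one (by positivity)]
    have : (0:ℝ) ≤ n := Nat.cast_nonneg n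
    linarith
  exact mul_pos ht (by linarith)

theorem below_lt {t : ℝ} (ht : 0 < t) (n : ℕ) : below t n < t := by
  have h : 0 < 1 / ((n : ℝ) + 2) := by positivity
  have : t * (1 - 1 / ((n : ℝ) + 2)) < t * 1 := mul_lt_mul_of_pos_left (by linarith) ht
  simpa [below] using this

theorem lt_above {t : ℝ} (ht : 0 < t) (n : ℕ) : t < above t n := by
  have h : 0 < 1 / ((n : ℝ) + 1) := by positivity
  have : t * 1 < t * (1 + 1 / ((n : ℝ) + 1)) := mul_lt_mul_of_pos_left (by linarith) ht
  simpa [above] using this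

theorem tendsto_below (t : ℝ) : Tendsto (below t) atTop (𝓝 t) := by
  have h1 : Tendsto (fun n : ℕ => 1 / ((n : ℝ) + 2)) atTop (𝓝 0) := by
    have := (tendsto_one_div_add_atTop_nhds_zero_nat (𝕜 := ℝ)).comp (tendsto_add_atTop_nat 1)
    refine this.congr fun n => ?_
    simp only [Function.comp]
    push_cast
    ring_nf
  have h2 : Tendsto (fun n : ℕ => t * (1 - 1 / ((n : ℝ) + 2))) atTop (𝓝 (t * (1 - 0))) :=
    (tendsto_const_nhds.sub h1).const_mul t
  rw [sub_zero, mul_one] at h2
  exact h2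

theorem tendsto_above (t : ℝ) : Tendsto (above t) atTop (𝓝 t) := by
  have h1 := tendsto_one_div_add_atTop_nhds_zero_nat (𝕜 := ℝ)
  have h2 : Tendsto (fun n : ℕ => t * (1 + 1 / ((n : ℝ) + 1))) atTop (𝓝 (t * (1 + 0))) :=
    (tendsto_const_nhds.add h1).const_mul t
  rw [add_zero, mul_one] at h2
  exact h2

theorem tendsto_push_below (f : RatMap K) (hf : 1 ≤ f.deg) (a : K) {t : ℝ} (ht : 0 < t)
    (y : P1 K) : Tendsto (fun n => push f a (below t n) t y) atTop (𝓝 (lo (cP f a y) t : ℝ)) := by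
  obtain ⟨t₀, h0, h0t, hb⟩ := exists_below (TP_cP f hf a y) ht
  refine tendsto_const_nhds.congr' ?_
  filter_upwards [(tendsto_below t).eventually (lt_mem_nhds h0t)] with n hn
  have h1 := hb (below t n) hn (below_lt ht n)
  rw [push_eq_of_hi_eq_lo f hf a (below_pos ht n) (below_lt ht n) y h1.2, h1.2]

theorem tendsto_push_above (f : RatMap K) (hf : 1 ≤ f.deg) (a : K) {t : ℝ} (ht : 0 < t)
    (y : P1 K) : Tendsto (fun n => push f a t (above t n) y) atTop (𝓝 (hi (cP f a y) t : ℝ)) := by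
  obtain ⟨t₀, h0t, hb⟩ := exists_above (TP_cP f hf a y) ht
  refine tendsto_const_nhds.congr' ?_
  filter_upwards [(tendsto_above t).eventually (gt_mem_nhds h0t)] with n hn
  have h1 := hb (above t n) (lt_above ht n) hn
  rw [push_eq_of_hi_eq_lo f hf a ht (lt_above ht n) y h1.1.symm]

theorem measurable_lo (f : RatMap K) (hf : 1 ≤ f.deg) (a : K) {t : ℝ} (ht : 0 < t) :
    Measurable fun y : P1 K => (lo (cP f a y) t : ℝ) :=
  measurable_of_tendsto_metrizable
    (fun n => (continuous_push f hf a (below_pos ht n) (below_lt ht n)).measurable)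
    (tendsto_pi_nhds.2 fun y => tendsto_push_below f hf a ht y)

theorem measurable_hi (f : RatMap K) (hf : 1 ≤ f.deg) (a : K) {t : ℝ} (ht : 0 < t) :
    Measurable fun y : P1 K => (hi (cP f a y) t : ℝ) :=
  measurable_of_tendsto_metrizable
    (fun n => (continuous_push f hf a ht (lt_above ht n)).measurable)
    (tendsto_pi_nhds.2 fun y => tendsto_push_above f hf a ht y)

open Classical in
theorem tendsto_ramp_below (a : K) {t : ℝ} (ht : 0 < t) (x : P1 K) :
    Tendsto (fun n => ramp a (below t n) t x) atTop (𝓝 (if x ∈ oD a t then 1 else 0)) := by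
  induction x using OnePoint.rec with
  | infty => simp
  | coe x =>
    simp only [ramp_coe, coe_mem_oD]
    split_ifs with h
    · refine tendsto_const_nhds.congr' ?_
      filter_upwards [(tendsto_below t).eventually (lt_mem_nhds h)] with n hn
      exact (rampB_eq_one (below_pos ht n) (below_lt ht n) hn.le).symm
    · refine tendsto_const_nhds.congr fun n => ?_
      exact (rampB_eq_zero (below_lt ht n) (not_lt.1 h)).symm

open Classical in
theorem tendsto_ramp_above (a : K) {t : ℝ} (ht : 0 < t) (x : P1 K) :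
    Tendsto (fun n => ramp a t (above t n) x) atTop (𝓝 (if x ∈ cD a t then 1 else 0)) := by
  induction x using OnePoint.rec with
  | infty => simp
  | coe x =>
    simp only [ramp_coe, coe_mem_cD]
    split_ifs with h
    · refine tendsto_const_nhds.congr fun n => ?_
      exact (rampB_eq_one ht (lt_above ht n) h).symm
    · refine tendsto_const_nhds.congr' ?_
      filter_upwards [(tendsto_above t).eventually (gt_mem_nhds (not_le.1 h))] with n hn
      exact (rampB_eq_zero (lt_above ht n) hn.le).symm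

theorem ramp_bound (a : K) {t₀ t₁ : ℝ} (h0 : 0 < t₀) (h01 : t₀ < t₁) (x : P1 K) :
    ‖ramp a t₀ t₁ x‖ ≤ 1 := by
  induction x using OnePoint.rec with
  | infty => simp
  | coe x =>
    rw [ramp_coe, Real.norm_eq_abs, abs_of_nonneg (rampB_nonneg h0 h01 x)]
    exact rampB_le_one h0 h01 x

variable {ρ : Measure (P1 K)} [IsFiniteMeasure ρ]

theorem transfer_oD_fun (f : RatMap K) (hf : 1 ≤ f.deg) (hA : ActOK f)
    (hρ : WPull f ρ) (ψ : C(P1 K, ℝ)) (a : K) {t : ℝ} (ht : 0 < t) :
    ∫ y, ψ y * (lo (cP f a y) t : ℝ) ∂ρ = f.deg * ∫ x in oD a t, ψ (f.act x) ∂ρ := by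
  classical
  obtain ⟨C, hC⟩ := (isCompact_univ (X := P1 K)).exists_bound_of_continuousOn
    ψ.continuous.continuousOn
  have hC' : ∀ x, ‖ψ x‖ ≤ C := fun x => hC x (Set.mem_univ _)
  have hC0 : 0 ≤ C := (norm_nonneg _).trans (hC' OnePoint.infty)
  have h1 : Tendsto (fun n => ∫ y, ψ y * push f a (below t n) t y ∂ρ) atTop
      (𝓝 (∫ y, ψ y * (lo (cP f a y) t : ℝ) ∂ρ)) := by
    refine tendsto_integral_of_dominated_convergence (fun _ => C * f.deg) ?_ ?_ ?_ ?_
    · exact fun n => (ψ.continuous.mul (continuous_push f hf a (below_pos ht n)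
        (below_lt ht n))).measurable.aestronglyMeasurable
    · exact integrable_const _
    · intro n
      refine ae_of_all _ fun y => ?_
      rw [norm_mul]
      refine mul_le_mul (hC' y) ?_ (norm_nonneg _) hC0
      rw [Real.norm_eq_abs, abs_of_nonneg (push_nonneg f hf a (below_pos ht n) (below_lt ht n) y)]
      exact push_le f hf a (below_pos ht n) (below_lt ht n) y
    · exact ae_of_all _ fun y => (tendsto_push_below f hf a ht y).const_mul _
  have h2 : Tendsto (fun n => ∫ x, ψ (f.act x) * ramp a (below t n) t x ∂ρ) atTop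
      (𝓝 (∫ x, ψ (f.act x) * (if x ∈ oD a t then 1 else 0) ∂ρ)) := by
    refine tendsto_integral_of_dominated_convergence (fun _ => C * 1) ?_ ?_ ?_ ?_
    · exact fun n => ((ψ.continuous.comp hA.cont).mul (continuous_ramp a (below_pos ht n)
        (below_lt ht n))).measurable.aestronglyMeasurable
    · exact integrable_const _
    · intro n
      refine ae_of_all _ fun y => ?_
      rw [norm_mul]
      exact mul_le_mul (hC' _) (ramp_bound a (below_pos ht n) (below_lt ht n) y)
        (norm_nonneg _) hC0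
    · exact ae_of_all _ fun y => (tendsto_ramp_below a ht y).const_mul _
  have h3 := h2.const_mul (f.deg : ℝ)
  have h4 : (fun n => ∫ y, ψ y * push f a (below t n) t y ∂ρ) =
      fun n => (f.deg : ℝ) * ∫ x, ψ (f.act x) * ramp a (below t n) t x ∂ρ := by
    funext n
    exact hρ ψ a _ _ (below_pos ht n) (below_lt ht n)
  rw [h4] at h1
  rw [tendsto_nhds_unique h1 h3]
  congr 1
  rw [← integral_indicator (isOpen_oD a t).measurableSet]
  congr 1
  funext x
  by_cases hx : x ∈ oD a t <;> simp [hx]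

theorem transfer_cD_fun (f : RatMap K) (hf : 1 ≤ f.deg) (hA : ActOK f)
    (hρ : WPull f ρ) (ψ : C(P1 K, ℝ)) (a : K) {t : ℝ} (ht : 0 < t) :
    ∫ y, ψ y * (hi (cP f a y) t : ℝ) ∂ρ = f.deg * ∫ x in cD a t, ψ (f.act x) ∂ρ := by
  classical
  obtain ⟨C, hC⟩ := (isCompact_univ (X := P1 K)).exists_bound_of_continuousOn
    ψ.continuous.continuousOn
  have hC' : ∀ x, ‖ψ x‖ ≤ C := fun x => hC x (Set.mem_univ _)
  have hC0 : 0 ≤ C := (norm_nonneg _).trans (hC' OnePoint.infty)
  have h1 : Tendsto (fun n => ∫ y, ψ y * push f a t (above t n) y ∂ρ) atTop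
      (𝓝 (∫ y, ψ y * (hi (cP f a y) t : ℝ) ∂ρ)) := by
    refine tendsto_integral_of_dominated_convergence (fun _ => C * f.deg) ?_ ?_ ?_ ?_
    · exact fun n => (ψ.continuous.mul (continuous_push f hf a ht
        (lt_above ht n))).measurable.aestronglyMeasurable
    · exact integrable_const _
    · intro n
      refine ae_of_all _ fun y => ?_
      rw [norm_mul]
      refine mul_le_mul (hC' y) ?_ (norm_nonneg _) hC0
      rw [Real.norm_eq_abs, abs_of_nonneg (push_nonneg f hf a ht (lt_above ht n) y)]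
      exact push_le f hf a ht (lt_above ht n) y
    · exact ae_of_all _ fun y => (tendsto_push_above f hf a ht y).const_mul _
  have h2 : Tendsto (fun n => ∫ x, ψ (f.act x) * ramp a t (above t n) x ∂ρ) atTop
      (𝓝 (∫ x, ψ (f.act x) * (if x ∈ cD a t then 1 else 0) ∂ρ)) := by
    refine tendsto_integral_of_dominated_convergence (fun _ => C * 1) ?_ ?_ ?_ ?_
    · exact fun n => ((ψ.continuous.comp hA.cont).mul (continuous_ramp a ht
        (lt_above ht n))).measurable.aestronglyMeasurable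
    · exact integrable_const _
    · intro n
      refine ae_of_all _ fun y => ?_
      rw [norm_mul]
      exact mul_le_mul (hC' _) (ramp_bound a ht (lt_above ht n) y)
        (norm_nonneg _) hC0
    · exact ae_of_all _ fun y => (tendsto_ramp_above a ht y).const_mul _
  have h3 := h2.const_mul (f.deg : ℝ)
  have h4 : (fun n => ∫ y, ψ y * push f a t (above t n) y ∂ρ) =
      fun n => (f.deg : ℝ) * ∫ x, ψ (f.act x) * ramp a t (above t n) x ∂ρ := by
    funext n
    exact hρ ψ a _ _ ht (lt_above ht n)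
  rw [h4] at h1
  rw [tendsto_nhds_unique h1 h3]
  congr 1
  rw [← integral_indicator (isClosed_cD a t).measurableSet]
  congr 1
  funext x
  by_cases hx : x ∈ cD a t <;> simp [hx]

/-- from functions to Baire sets. -/
theorem transfer_set_aux (f : RatMap K) (hA : ActOK f) {D S : Set (P1 K)}
    (hS : IsBaire S) {N : P1 K → ℝ} (hN : Measurable N) (hN0 : ∀ y, 0 ≤ N y) {B : ℝ}
    (hNB : ∀ y, N y ≤ B)
    (h : ∀ ψ : C(P1 K, ℝ), ∫ y, ψ y * N y ∂ρ = f.deg * ∫ x in D, ψ (f.act x) ∂ρ) :
    ∫ y in S, N y ∂ρ = f.deg * ρ.real (D ∩ f.act ⁻¹' S) := by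
  have hact : Measurable f.act := hA.cont.measurable
  have hint : Integrable N ρ := Integrable.of_bound hN.aestronglyMeasurable B
    (ae_of_all _ fun y => by rw [Real.norm_eq_abs, abs_of_nonneg (hN0 y)]; exact hNB y)
  set μ : Measure (P1 K) := (f.deg : ENNReal) • (ρ.restrict D).map f.act with hμ
  set ν : Measure (P1 K) := ρ.withDensity (fun y => ENNReal.ofReal (N y)) with hν
  have hfin1 : IsFiniteMeasure μ := by
    refine ⟨?_⟩
    rw [hμ, Measure.smul_apply, Measure.map_apply hact MeasurableSet.univ]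
    exact ENNReal.mul_lt_top (ENNReal.natCast_lt_top _) (measure_lt_top _ _)
  have hfin2 : IsFiniteMeasure ν := isFiniteMeasure_withDensity_ofReal hint.2
  have hSm : MeasurableSet S := hS.measurableSet
  have key : μ S = ν S := by
    refine measure_eq_of_integral_eq (fun g hg => ?_) hS
    have e1 : ∫ x, g x ∂μ = f.deg * ∫ x in D, g (f.act x) ∂ρ := by
      rw [hμ, integral_smul_measure,
        integral_map hact.aemeasurable g.continuous.measurable.aestronglyMeasurable]
      simp
    have e2 : ∫ x, g x ∂ν = ∫ y, g y * N y ∂ρ := by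
      rw [hν, integral_withDensity_eq_integral_toReal_smul hN.ennreal_ofReal
        (ae_of_all _ fun y => ENNReal.ofReal_lt_top)]
      congr 1
      funext y
      rw [ENNReal.toReal_ofReal (hN0 y), smul_eq_mul, mul_comm]
    rw [e1, e2, h g]
  have h1 : μ S = (f.deg : ENNReal) * ρ (D ∩ f.act ⁻¹' S) := by
    rw [hμ, Measure.smul_apply, Measure.map_apply hact hSm,
      Measure.restrict_apply (hact hSm), smul_eq_mul, Set.inter_comm]
  have h2 : ν S = ENNReal.ofReal (∫ y in S, N y ∂ρ) := by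
    rw [hν, withDensity_apply _ hSm, ofReal_integral_eq_lintegral_ofReal hint.integrableOn
      (ae_of_all _ hN0)]
  rw [h1, h2] at key
  have h3 := congrArg ENNReal.toReal key
  rw [ENNReal.toReal_ofReal (integral_nonneg hN0), ENNReal.toReal_mul] at h3
  rw [← h3]
  simp [Measure.real]

/-- **Transfer formula**, open discs. -/
theorem transfer_oD (f : RatMap K) (hf : 1 ≤ f.deg) (hA : ActOK f) (hρ : WPull f ρ)
    (a : K) {t : ℝ} (ht : 0 < t) {S : Set (P1 K)} (hS : IsBaire S) :
    ∫ y in S, (lo (cP f a y) t : ℝ) ∂ρ = f.deg * ρ.real (oD a t ∩ f.act ⁻¹' S) :=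
  transfer_set_aux f hA hS (measurable_lo f hf a ht)
    (fun y => Nat.cast_nonneg _) (B := f.deg)
    (fun y => by exact_mod_cast lo_cP_le f hf a ht y)
    fun ψ => transfer_oD_fun f hf hA hρ ψ a ht

/-- **Transfer formula**, closed discs. -/
theorem transfer_cD (f : RatMap K) (hf : 1 ≤ f.deg) (hA : ActOK f) (hρ : WPull f ρ)
    (a : K) {t : ℝ} (ht : 0 < t) {S : Set (P1 K)} (hS : IsBaire S) :
    ∫ y in S, (hi (cP f a y) t : ℝ) ∂ρ = f.deg * ρ.real (cD a t ∩ f.act ⁻¹' S) :=
  transfer_set_aux f hA hS (measurable_hi f hf a ht)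
    (fun y => Nat.cast_nonneg _) (B := f.deg)
    (fun y => by exact_mod_cast hi_cP_le f hf a ht y)
    fun ψ => transfer_cD_fun f hf hA hρ ψ a ht

end Pool.Agent.Helper22.Berk
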