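import Mathlib
import Pool.Agent.Helper22.Berk.Transfer
import Pool.Agent.Helper17.Berk.GG

/-!
# Regular measures: invariance and the transfer formula for Borel sets (MP_160e9b_an)
-/

open Polynomial Topology MeasureTheory Filter
open Pool.Agent.Helper17.Berk

set_option linter.unusedSectionVars false
set_option linter.unusedVariables false

namespace Pool.Agent.Helper22.Berk

section general

variable {X : Type*} [TopologicalSpace X] [CompactSpace X] [T2Space X] [MeasurableSpace X]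
  [BorelSpace X]

/-- approximation of Borel sets by Baire sets. -/
theorem exists_isBaire_approx (ρ : Measure X) [IsFiniteMeasure ρ] [ρ.Regular] {S : Set X}
    (hS : MeasurableSet S) {ε : ℝ} (hε : 0 < ε) :
    ∃ B : Set X, IsBaire B ∧ ρ.real (symmDiff S B) ≤ ε := by
  have hε2 : ENNReal.ofReal (ε / 2) ≠ 0 := by
    rw [Ne, ENNReal.ofReal_eq_zero, not_le]; linarith
  obtain ⟨C, hCS, hC, hC'⟩ := hS.exists_isClosed_sdiff_lt (measure_ne_top ρ S) hε2
  obtain ⟨U, hSU, hU, -, hU'⟩ := hS.exists_isOpen_sdiff_lt (measure_ne_top ρ S) hε2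
  obtain ⟨g, hg0, hg1, hg⟩ := exists_continuous_zero_one_of_isClosed hU.isClosed_compl hC
    (by
      rw [Set.disjoint_left]
      intro x hx hx'
      exact hx (hSU (hCS hx')))
  refine ⟨{x | 1 / 2 < g x}, isBaire_lt continuous_const g.continuous, ?_⟩
  have hsub : symmDiff S {x | 1 / 2 < g x} ⊆ (S \ C) ∪ (U \ S) := by
    rintro x (⟨hx, hx'⟩ | ⟨hx, hx'⟩)
    · left
      refine ⟨hx, fun hxC => hx' ?_⟩
      have : g x = 1 := hg1 hxC
      simp only [Set.mem_ofPred_eq, this]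
      norm_num
    · right
      refine ⟨?_, hx'⟩
      by_contra hxU
      have : g x = 0 := hg0 hxU
      simp only [Set.mem_ofPred_eq, this] at hx
      norm_num at hx
  have h1 : ρ (symmDiff S {x | 1 / 2 < g x}) ≤ ENNReal.ofReal ε := by
    calc ρ (symmDiff S {x | 1 / 2 < g x}) ≤ ρ ((S \ C) ∪ (U \ S)) := measure_mono hsub
      _ ≤ ρ (S \ C) + ρ (U \ S) := measure_union_le _ _
      _ ≤ ENNReal.ofReal (ε / 2) + ENNReal.ofReal (ε / 2) := add_le_add hC'.le hU'.le
      _ = ENNReal.ofReal ε := by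
        rw [← ENNReal.ofReal_add (by linarith) (by linarith)]; congr 1; ring
  exact ENNReal.toReal_le_of_le_ofReal hε.le h1

/-- equality of regular measures. -/
theorem regular_ext {μ ν : Measure X} [IsFiniteMeasure μ] [IsFiniteMeasure ν] [μ.Regular]
    [ν.Regular] (h : ∀ g : C(X, ℝ), ∫ x, g x ∂μ = ∫ x, g x ∂ν) : μ = ν := by
  refine Measure.ext_of_integral_eq_on_compactlySupported fun g => ?_
  exact h ⟨g, g.continuous⟩

theorem abs_measure_sub_le (ρ : Measure X) [IsFiniteMeasure ρ] {S B : Set X}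
    (hS : MeasurableSet S) (hB : MeasurableSet B) :
    |ρ.real S - ρ.real B| ≤ ρ.real (symmDiff S B) := by
  have h1 : ρ.real S ≤ ρ.real B + ρ.real (symmDiff S B) := by
    refine (measureReal_mono (μ := ρ) (s₂ := B ∪ symmDiff S B) ?_).trans (measureReal_union_le _ _)
    intro x hx
    by_cases hxB : x ∈ B
    · exact Or.inl hxB
    · exact Or.inr (Or.inl ⟨hx, hxB⟩)
  have h2 : ρ.real B ≤ ρ.real S + ρ.real (symmDiff S B) := by
    refine (measureReal_mono (μ := ρ) (s₂ := S ∪ symmDiff S B) ?_).trans (measureReal_union_le _ _)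
    intro x hx
    by_cases hxS : x ∈ S
    · exact Or.inl hxS
    · exact Or.inr (Or.inr ⟨hx, hxS⟩)
  rw [abs_le]
  constructor <;> linarith

theorem abs_setIntegral_sub_le (ρ : Measure X) [IsFiniteMeasure ρ] {S B : Set X}
    (hS : MeasurableSet S) (hB : MeasurableSet B) {N : X → ℝ} (hN : Measurable N)
    (hN0 : ∀ y, 0 ≤ N y) {M : ℝ} (hNM : ∀ y, N y ≤ M) :
    |∫ y in S, N y ∂ρ - ∫ y in B, N y ∂ρ| ≤ M * ρ.real (symmDiff S B) := by
  have hint : Integrable N ρ := Integrable.of_bound hN.aestronglyMeasurable M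
    (ae_of_all _ fun y => by rw [Real.norm_eq_abs, abs_of_nonneg (hN0 y)]; exact hNM y)
  have hD : MeasurableSet (symmDiff S B) := hS.symmDiff hB
  have hDle : ∫ y in symmDiff S B, N y ∂ρ ≤ M * ρ.real (symmDiff S B) := by
    calc ∫ y in symmDiff S B, N y ∂ρ ≤ ∫ _ in symmDiff S B, M ∂ρ :=
          integral_mono_ae hint.integrableOn (integrable_const _) (ae_of_all _ hNM)
      _ = M * ρ.real (symmDiff S B) := by simp [mul_comm]
  have key : ∀ {S B : Set X}, MeasurableSet S → MeasurableSet B →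
      ∫ y in S, N y ∂ρ ≤ ∫ y in B, N y ∂ρ + ∫ y in symmDiff S B, N y ∂ρ := by
    intro S B hS hB
    have hD : MeasurableSet (symmDiff S B) := hS.symmDiff hB
    have h1 : ∫ y in S, N y ∂ρ ≤ ∫ y in B ∪ (symmDiff S B \ B), N y ∂ρ := by
      refine setIntegral_mono_set hint.integrableOn (ae_of_all _ hN0) ?_
      refine LE.le.eventuallyLE ?_
      intro x hx
      by_cases hxB : x ∈ B
      · exact Or.inl hxB
      · exact Or.inr ⟨Or.inl ⟨hx, hxB⟩, hxB⟩
    have h2 : ∫ y in B ∪ (symmDiff S B \ B), N y ∂ρ =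
        ∫ y in B, N y ∂ρ + ∫ y in symmDiff S B \ B, N y ∂ρ :=
      setIntegral_union Set.disjoint_sdiff_right (hD.diff hB) hint.integrableOn hint.integrableOn
    have h3 : ∫ y in symmDiff S B \ B, N y ∂ρ ≤ ∫ y in symmDiff S B, N y ∂ρ :=
      setIntegral_mono_set hint.integrableOn (ae_of_all _ hN0)
        (LE.le.eventuallyLE Set.sdiff_subset)
    linarith
  have h1 := key hS hB
  have h2 := key hB hS
  rw [symmDiff_comm B S] at h2
  rw [abs_le]
  constructor <;> linarith

/-- oscillation bound. -/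
theorem osc_bound {X : Type*} [MeasurableSpace X] {ρ : Measure X} [IsProbabilityMeasure ρ]
    {F : X → ℝ} (hF : Integrable F ρ) {L m : ℝ} (hL : ∀ᵐ y ∂ρ, L ≤ F y)
    (hU : ∀ᵐ y ∂ρ, F y ≤ L + m) (S : Set X) :
    |∫ y in S, F y ∂ρ - (∫ y, F y ∂ρ) * ρ.real S| ≤ m * ρ.real S := by
  have hS0 : 0 ≤ ρ.real S := measureReal_nonneg
  have e1 : L ≤ ∫ y, F y ∂ρ := by
    have := integral_mono_ae (integrable_const L) hF hL
    simpa using this
  have e2 : ∫ y, F y ∂ρ ≤ L + m := by
    have := integral_mono_ae hF (integrable_const (L + m)) hU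
    simpa using this
  have e3 : L * ρ.real S ≤ ∫ y in S, F y ∂ρ := by
    have := integral_mono_ae (μ := ρ.restrict S) (integrable_const L) hF.integrableOn
      (ae_restrict_of_ae hL)
    simpa [mul_comm] using this
  have e4 : ∫ y in S, F y ∂ρ ≤ (L + m) * ρ.real S := by
    have := integral_mono_ae (μ := ρ.restrict S) hF.integrableOn (integrable_const (L + m))
      (ae_restrict_of_ae hU)
    simpa [mul_comm] using this
  rw [abs_le]
  constructor <;> nlinarith

/-- from Baire sets to Borel sets. -/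
theorem transfer_borel (ρ : Measure X) [IsFiniteMeasure ρ] [ρ.Regular] {F : X → X}
    (hF : MeasurePreserving F ρ ρ) {N : X → ℝ} (hN : Measurable N) (hN0 : ∀ y, 0 ≤ N y)
    {M d : ℝ} (hd : 0 ≤ d) (hNM : ∀ y, N y ≤ M) {D : Set X} (hD : MeasurableSet D)
    (h : ∀ S : Set X, IsBaire S → ∫ y in S, N y ∂ρ = d * ρ.real (D ∩ F ⁻¹' S))
    {S : Set X} (hS : MeasurableSet S) :
    ∫ y in S, N y ∂ρ = d * ρ.real (D ∩ F ⁻¹' S) := by
  have key : ∀ ε : ℝ, 0 < ε → |∫ y in S, N y ∂ρ - d * ρ.real (D ∩ F ⁻¹' S)| ≤ (|M| + d) * ε := by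
    intro ε hε
    obtain ⟨B, hB, hSB⟩ := exists_isBaire_approx ρ hS hε
    have hBm := hB.measurableSet
    have h1 := abs_setIntegral_sub_le ρ hS hBm hN hN0 hNM
    have h2 := abs_measure_sub_le ρ (hD.inter (hF.measurable hS)) (hD.inter (hF.measurable hBm))
    have h3 : ρ.real (symmDiff (D ∩ F ⁻¹' S) (D ∩ F ⁻¹' B)) ≤ ρ.real (symmDiff S B) := by
      have e : ρ.real (F ⁻¹' (symmDiff S B)) = ρ.real (symmDiff S B) := by
        rw [Measure.real, Measure.real, hF.measure_preimage (hS.symmDiff hBm).nullMeasurableSet]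
      rw [← e]
      refine measureReal_mono ?_
      rintro x (⟨⟨hx1, hx2⟩, hx3⟩ | ⟨⟨hx1, hx2⟩, hx3⟩)
      · exact Or.inl ⟨hx2, fun h => hx3 ⟨hx1, h⟩⟩
      · exact Or.inr ⟨hx2, fun h => hx3 ⟨hx1, h⟩⟩
    have h4 := h B hB
    have h5 : ∫ y in S, N y ∂ρ - d * ρ.real (D ∩ F ⁻¹' S) =
        (∫ y in S, N y ∂ρ - ∫ y in B, N y ∂ρ) -
          d * (ρ.real (D ∩ F ⁻¹' S) - ρ.real (D ∩ F ⁻¹' B)) := by
      rw [h4]; ring
    rw [h5]
    refine (abs_sub _ _).trans ?_
    rw [abs_mul, abs_of_nonneg hd, add_mul]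
    refine add_le_add ?_ ?_
    · refine h1.trans ?_
      exact mul_le_mul (le_abs_self M) hSB measureReal_nonneg (abs_nonneg M)
    · exact mul_le_mul_of_nonneg_left ((h2.trans h3).trans hSB) hd
  by_contra hne
  have hpos : 0 < |∫ y in S, N y ∂ρ - d * ρ.real (D ∩ F ⁻¹' S)| := abs_pos.2 (_root_.sub_ne_zero.2 hne)
  set x := |∫ y in S, N y ∂ρ - d * ρ.real (D ∩ F ⁻¹' S)| with hx
  have hMd : 0 < |M| + d + 1 := by positivity
  have h1 := key (x / (|M| + d + 1)) (div_pos hpos hMd)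
  rw [mul_div_assoc', le_div_iff₀ hMd] at h1
  nlinarith

end general

universe u
variable {K : Type u} [NontriviallyNormedField K] [IsUltrametricDist K] [IsAlgClosed K]

omit [IsUltrametricDist K] in
/-- the value group is dense. -/
theorem exists_norm_between {u v : ℝ} (hv : 0 < v) (huv : u < v) :
    ∃ π : K, π ≠ 0 ∧ u < ‖π‖ ∧ ‖π‖ < v := by
  obtain ⟨c, hc⟩ := NormedField.exists_one_lt_norm K
  set x := ‖c‖ with hx
  have hx0 : 0 < x := by linarith
  have hlx : 0 < Real.log x := Real.log_pos hc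
  set u' := max u (v / 2) with hu'
  have hu'0 : 0 < u' := lt_of_lt_of_le (by linarith) (le_max_right _ _)
  have hu'v : u' < v := max_lt huv (by linarith)
  obtain ⟨q, hq1, hq2⟩ := exists_rat_btwn (show Real.log u' / Real.log x <
    Real.log v / Real.log x from div_lt_div_of_pos_right (Real.log_lt_log hu'0 hu'v) hlx)
  have hc0 : c ≠ 0 := norm_pos_iff.1 hx0
  obtain ⟨π, hπ⟩ := IsAlgClosed.exists_pow_nat_eq (c ^ q.num) q.den_pos
  have h1 : ‖π‖ ^ q.den = x ^ q.num := by
    rw [← norm_pow, hπ, norm_zpow]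
  have hπ0 : π ≠ 0 := by
    intro h
    rw [h, zero_pow q.den_pos.ne'] at hπ
    exact zpow_ne_zero _ hc0 hπ.symm
  have hπp : 0 < ‖π‖ := norm_pos_iff.2 hπ0
  have h2 : Real.log ‖π‖ = q * Real.log x := by
    have h3 : (q.den : ℝ) * Real.log ‖π‖ = q.num * Real.log x := by
      rw [← Real.log_pow, h1, Real.log_zpow]
    have h4 : (q : ℝ) = q.num / q.den := by exact_mod_cast (Rat.num_div_den q).symm
    have h5 : (q.den : ℝ) ≠ 0 := by exact_mod_cast q.den_pos.ne'
    rw [h4]
    field_simp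
    linarith
  refine ⟨π, hπ0, ?_, ?_⟩
  · rw [div_lt_iff₀ hlx, ← h2] at hq1
    exact (le_max_left _ _).trans_lt ((Real.log_lt_log_iff hu'0 hπp).1 hq1)
  · rw [lt_div_iff₀ hlx, ← h2] at hq2
    exact (Real.log_lt_log_iff hπp hv).1 hq2

theorem actOK (f : RatMap K) (hf : 1 ≤ f.deg) : ActOK f :=
  ⟨f.continuous_act, fun w z hz => by rw [f.act_emb, (f.mem_fib hf z w).1 hz]⟩

omit [IsUltrametricDist K] [IsAlgClosed K] in
theorem deg_id : (RatMap.id K).deg = 1 := by
  simp [RatMap.deg, RatMap.id]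

theorem push_id (a : K) {t₀ t₁ : ℝ} (h0 : 0 < t₀) (h01 : t₀ < t₁) :
    push (RatMap.id K) a t₀ t₁ = ramp a t₀ t₁ := by
  have hd : 1 ≤ (RatMap.id K).deg := by rw [deg_id]
  refine (continuous_push _ hd a h0 h01).ext_on dense_range_emb (continuous_ramp a h0 h01) ?_
  rintro _ ⟨w, rfl⟩
  rw [← sum_fib_ramp _ hd a h0 h01 w, RatMap.fib_id]
  simp

theorem WPull.id (ρ : Measure (P1 K)) : WPull (RatMap.id K) ρ := by
  intro ψ a t₀ t₁ h0 h01
  rw [push_id a h0 h01, deg_id]
  simp [RatMap.act_id]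

theorem WPull.iter {f : RatMap K} (hf : 1 ≤ f.deg) {ρ : Measure (P1 K)}
    (hρ : f.IsEquilibrium ρ) (n : ℕ) : WPull (f.iter n) ρ := by
  induction n with
  | zero => exact WPull.id ρ
  | succ n ih =>
    have h1 : 1 ≤ (f.iter n).deg := by rw [f.deg_iter]; exact Nat.one_le_pow _ _ hf
    have h2 : 1 ≤ (f.comp (f.iter n)).deg := by
      rw [f.deg_comp]; exact Nat.one_le_iff_ne_zero.2 (by positivity)
    exact WPull.comp hf h1 h2 (actOK f hf) (f.act_comp _) (f.fib_comp _) (f.deg_comp _) hρ ih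

/-- invariance. -/
theorem measurePreserving_act {f : RatMap K} (hf : 1 ≤ f.deg) {ρ : Measure (P1 K)}
    [IsFiniteMeasure ρ] [ρ.Regular] (hρ : f.IsEquilibrium ρ) : MeasurePreserving f.act ρ ρ := by
  have hc := f.continuous_act
  refine ⟨hc.measurable, ?_⟩
  have : (Measure.map f.act ρ).InnerRegular := Measure.InnerRegular.map_of_continuous hc
  refine regular_ext fun g => ?_
  rw [integral_map hc.measurable.aemeasurable g.continuous.measurable.aestronglyMeasurable]
  have h1 := hρ.pull (g.comp ⟨f.act, hc⟩) ((f.deg : ℝ) • g) (fun w => by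
    have : Multiset.map (fun z => (g.comp ⟨f.act, hc⟩) (emb z)) (f.fib w) =
        Multiset.replicate f.deg (g (emb w)) := by
      rw [Multiset.eq_replicate]
      refine ⟨by rw [Multiset.card_map, f.card_fib], fun b hb => ?_⟩
      obtain ⟨z, hz, rfl⟩ := Multiset.mem_map.1 hb
      change g (f.act (emb z)) = g (emb w)
      rw [(actOK f hf).fib w z hz]
    rw [this, Multiset.sum_replicate]
    simp)
  simp only [ContinuousMap.coe_smul, Pi.smul_apply, smul_eq_mul, ContinuousMap.comp_apply,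
    ContinuousMap.coe_mk, integral_const_mul] at h1
  have hd : (f.deg : ℝ) ≠ 0 := by
    have : 0 < f.deg := hf
    positivity
  exact (mul_left_cancel₀ hd h1).symm

theorem measurePreserving_iter {f : RatMap K} (hf : 1 ≤ f.deg) {ρ : Measure (P1 K)}
    [IsFiniteMeasure ρ] [ρ.Regular] (hρ : f.IsEquilibrium ρ) (n : ℕ) :
    MeasurePreserving (f.iter n).act ρ ρ := by
  rw [f.act_iter]
  exact (measurePreserving_act hf hρ).iterate n

end Pool.Agent.Helper22.Berk
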