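import Pool.Agent.Helper17.Berk.Defs

/-!
# Compactness of closed discs centred at `0` of radius `M` in the Berkovich affine line
-/

open Polynomial Topology
open Pool.Agent.Helper17.Berk

namespace Pool.Agent.Helper22.Berk

universe u
variable {K : Type u} [NontriviallyNormedField K]

/-- The evaluation embedding. -/
def ev (x : Berk K) : K[X] → ℝ := fun F => x F

theorem isInducing_ev : IsInducing (ev : Berk K → K[X] → ℝ) := ⟨rfl⟩

theorem injective_ev : Function.Injective (ev : Berk K → K[X] → ℝ) := fun _ _ h =>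
  Berk.ext fun F => congrFun h F

theorem isEmbedding_ev : IsEmbedding (ev : Berk K → K[X] → ℝ) := ⟨isInducing_ev, injective_ev⟩

instance : T2Space (Berk K) := isEmbedding_ev.t2Space

/-- bound for `x F` when `x X ≤ M`. -/
noncomputable def bd (M : ℝ) (F : K[X]) : ℝ :=
  ∑ i ∈ Finset.range (F.natDegree + 1), ‖F.coeff i‖ * M ^ i

theorem map_sum_le (x : Berk K) {ι : Type*} (s : Finset ι) (g : ι → K[X]) :
    x (∑ i ∈ s, g i) ≤ ∑ i ∈ s, x (g i) := by
  classical
  induction s using Finset.induction_on with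
  | empty => simp
  | insert i s hi ih =>
    rw [Finset.sum_insert hi, Finset.sum_insert hi]
    refine (x.map_add_le _ _).trans (max_le ?_ ?_)
    · have : 0 ≤ ∑ i ∈ s, x (g i) := Finset.sum_nonneg fun j _ => x.nonneg _
      linarith
    · have := x.nonneg (g i)
      linarith

theorem le_bd (x : Berk K) {M : ℝ} (h : x X ≤ M) (F : K[X]) : x F ≤ bd M F := by
  conv_lhs => rw [F.as_sum_range_C_mul_X_pow]
  refine (map_sum_le x _ _).trans (Finset.sum_le_sum fun i _ => ?_)
  rw [Berk.map_mul, Berk.map_C, Berk.map_pow]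
  have h0 : 0 ≤ x X := x.nonneg _
  gcongr

theorem isClosed_range_ev : IsClosed (Set.range (ev : Berk K → K[X] → ℝ)) := by
  have : Set.range (ev : Berk K → K[X] → ℝ) =
      {φ | (∀ F, 0 ≤ φ F) ∧ (∀ F G, φ (F * G) = φ F * φ G) ∧
        (∀ F G, φ (F + G) ≤ max (φ F) (φ G)) ∧ ∀ c : K, φ (C c) = ‖c‖} := by
    ext φ
    constructor
    · rintro ⟨x, rfl⟩
      exact ⟨x.nonneg, x.map_mul, x.map_add_le, x.map_C⟩
    · rintro ⟨h1, h2, h3, h4⟩
      exact ⟨⟨φ, h1, h2, h3, h4⟩, rfl⟩
  rw [this]
  simp only [Set.ofPred_and, Set.ofPred_forall]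
  refine IsClosed.inter ?_ (IsClosed.inter ?_ (IsClosed.inter ?_ ?_))
  · exact isClosed_iInter fun F => isClosed_le continuous_const (continuous_apply F)
  · exact isClosed_iInter fun F => isClosed_iInter fun G =>
      isClosed_eq (continuous_apply _) ((continuous_apply F).mul (continuous_apply G))
  · exact isClosed_iInter fun F => isClosed_iInter fun G =>
      isClosed_le (continuous_apply _) ((continuous_apply F).max (continuous_apply G))
  · exact isClosed_iInter fun c => isClosed_eq (continuous_apply _) continuous_const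

theorem isCompact_disc (M : ℝ) : IsCompact {x : Berk K | x X ≤ M} := by
  rw [isInducing_ev.isCompact_iff]
  have hK : IsCompact (Set.pi Set.univ fun F : K[X] => Set.Icc (0:ℝ) (bd M F)) :=
    isCompact_univ_pi fun F => isCompact_Icc
  refine (hK.of_isClosed_subset ?_ ?_)
  · have : ev '' {x : Berk K | x X ≤ M} = Set.range ev ∩ {φ : K[X] → ℝ | φ X ≤ M} := by
      ext φ
      constructor
      · rintro ⟨x, hx, rfl⟩
        exact ⟨⟨x, rfl⟩, hx⟩
      · rintro ⟨⟨x, rfl⟩, hx⟩
        exact ⟨x, hx, rfl⟩
    rw [this]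
    exact isClosed_range_ev.inter (isClosed_le (continuous_apply _) continuous_const)
  · rintro φ ⟨x, hx, rfl⟩
    intro F _
    exact ⟨x.nonneg F, le_bd x hx F⟩

theorem isClosed_disc (M : ℝ) : IsClosed {x : Berk K | x X ≤ M} :=
  isClosed_le (Berk.continuous_eval X) continuous_const

/-- A function on the affine line which agrees with a continuous extension near infinity. -/
theorem tendsto_infty_iff {β : Type*} [TopologicalSpace β] {g : Berk K → β} {b : β}
    (h : ∀ V ∈ 𝓝 b, ∃ M : ℝ, ∀ x : Berk K, M < x X → g x ∈ V) :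
    Filter.Tendsto g (Filter.coclosedCompact (Berk K)) (𝓝 b) := by
  intro V hV
  obtain ⟨M, hM⟩ := h V hV
  rw [Filter.mem_map]
  refine Filter.mem_of_superset
    ((isCompact_disc M).compl_mem_coclosedCompact_of_isClosed (isClosed_disc M)) fun x hx => ?_
  exact hM x (not_le.1 hx)

/-- Continuity of a real function on the projective line. -/
theorem continuous_P1 {β : Type*} [TopologicalSpace β] {g : P1 K → β}
    (h1 : Continuous fun x : Berk K => g (x : P1 K))
    (h2 : ∀ V ∈ 𝓝 (g OnePoint.infty), ∃ M : ℝ, ∀ x : Berk K, M < x X → g (x : P1 K) ∈ V) :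
    Continuous g := by
  rw [OnePoint.continuous_iff]
  exact ⟨tendsto_infty_iff h2, h1⟩

end Pool.Agent.Helper22.Berk
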