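import Mathlib

/-!
# Abstract mixing and second moment lemmas
-/

open MeasureTheory

namespace Pool.Agent.Helper22.Berk

variable {X : Type*} [MeasurableSpace X] {ρ : Measure X} [IsProbabilityMeasure ρ]

/-- mixing from the transfer formula: if `N = s + m 1_w` and `D ρ(B ∩ F⁻¹ T) = ∫_T N` for
`T = S` and `T = X` then `|ρ(B ∩ F⁻¹ S) - ρ(B) ρ(S)| ≤ (m / D) ρ(S)`. -/
theorem mixing_abs {D s m : ℝ} (hD : 0 < D) (hm : 0 ≤ m) {N : X → ℝ} {w S : Set X}
    (hw : MeasurableSet w) (_ : MeasurableSet S)
    (hN : ∀ y, N y = s + m * w.indicator (fun _ => (1:ℝ)) y) {b c : ℝ}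
    (hB : ∫ y, N y ∂ρ = D * b) (hBS : ∫ y in S, N y ∂ρ = D * c) :
    |c - b * ρ.real S| ≤ m / D * ρ.real S := by
  have hi : Integrable (w.indicator (fun _ => (1:ℝ))) ρ :=
    (integrable_const (1:ℝ)).indicator hw
  have h1 : D * b = s + m * ρ.real w := by
    rw [← hB]
    simp only [hN]
    rw [integral_add (integrable_const _) (hi.const_mul _), integral_const_mul,
      integral_indicator hw]
    simp
  have h2 : D * c = s * ρ.real S + m * ρ.real (w ∩ S) := by
    rw [← hBS]
    simp only [hN]
    rw [integral_add (integrable_const _) (hi.const_mul _).integrableOn, integral_const_mul,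
      integral_indicator hw, Measure.restrict_restrict hw]
    simp [mul_comm]
  have h3 : D * (c - b * ρ.real S) = m * (ρ.real (w ∩ S) - ρ.real w * ρ.real S) := by
    linear_combination h2 - ρ.real S * h1
  have h4 : |ρ.real (w ∩ S) - ρ.real w * ρ.real S| ≤ ρ.real S := by
    have e1 : ρ.real (w ∩ S) ≤ ρ.real S := measureReal_mono Set.inter_subset_right
    have e2 : 0 ≤ ρ.real (w ∩ S) := measureReal_nonneg
    have e3 : 0 ≤ ρ.real w := measureReal_nonneg
    have e4 : ρ.real w ≤ 1 := measureReal_le_one
    have e5 : 0 ≤ ρ.real S := measureReal_nonneg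
    rw [abs_le]
    constructor <;> nlinarith
  have h5 : |D * (c - b * ρ.real S)| ≤ m * ρ.real S := by
    rw [h3, abs_mul, abs_of_nonneg hm]
    exact mul_le_mul_of_nonneg_left h4 hm
  rw [abs_mul, abs_of_pos hD] at h5
  rw [div_mul_eq_mul_div, le_div_iff₀ hD]
  linarith

/-- Second moment lemma: events of probability `p` which are almost pairwise independent cover most
of the space. -/
theorem second_moment {A : ℕ → Set X} (hA : ∀ n, MeasurableSet (A n)) {p B : ℝ} (hp : 0 < p)
    (hAp : ∀ n, ρ.real (A n) = p) {β : ℕ → ℝ}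
    (hsum : ∀ M, ∑ k ∈ Finset.range M, β k ≤ B) (hβ : ∀ k, 0 ≤ β k)
    (hAA : ∀ i k, ρ.real (A i ∩ A (i + k + 1)) ≤ p ^ 2 + β k * p) {N : ℕ} (hN : 0 < N) :
    ρ.real (⋃ n ∈ Finset.range N, A n)ᶜ ≤ (1 + 2 * B) / (N * p) := by
  classical
  set Z : X → ℝ := fun x => ∑ n ∈ Finset.range N, (A n).indicator (fun _ => (1:ℝ)) x with hZ
  have hind : ∀ n, Integrable ((A n).indicator (fun _ => (1:ℝ))) ρ :=
    fun n => (integrable_const (1:ℝ)).indicator (hA n)
  have hprod : ∀ i j, ∀ x, (A i).indicator (fun _ => (1:ℝ)) x * (A j).indicator (fun _ => (1:ℝ)) x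
      = (A i ∩ A j).indicator (fun _ => (1:ℝ)) x := by
    intro i j x
    by_cases h1 : x ∈ A i <;> by_cases h2 : x ∈ A j <;> simp [h1, h2]
  have hint : ∀ i j, ∫ x, (A i ∩ A j).indicator (fun _ => (1:ℝ)) x ∂ρ = ρ.real (A i ∩ A j) := by
    intro i j
    rw [integral_indicator ((hA i).inter (hA j))]; simp
  have hZint : Integrable Z ρ := integrable_finsetSum _ fun n _ => hind n
  have hEZ : ∫ x, Z x ∂ρ = N * p := by
    rw [hZ, integral_finsetSum _ fun n _ => hind n]
    have : ∀ n ∈ Finset.range N, ∫ x, (A n).indicator (fun _ => (1:ℝ)) x ∂ρ = p := by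
      intro n _
      rw [integral_indicator (hA n)]
      simpa using hAp n
    rw [Finset.sum_congr rfl this]; simp
  have hZ2 : ∀ x, Z x ^ 2 = ∑ i ∈ Finset.range N, ∑ j ∈ Finset.range N,
      (A i ∩ A j).indicator (fun _ => (1:ℝ)) x := by
    intro x
    rw [sq, hZ, Finset.sum_mul_sum]
    exact Finset.sum_congr rfl fun i _ => Finset.sum_congr rfl fun j _ => hprod i j x
  have hindij : ∀ i j, Integrable ((A i ∩ A j).indicator (fun _ => (1:ℝ))) ρ :=
    fun i j => (integrable_const (1:ℝ)).indicator ((hA i).inter (hA j))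
  have hZ2int : Integrable (fun x => Z x ^ 2) ρ := by
    simp only [hZ2]
    exact integrable_finsetSum _ fun i _ => integrable_finsetSum _ fun j _ => hindij i j
  have hEZ2 : ∫ x, Z x ^ 2 ∂ρ = ∑ i ∈ Finset.range N, ∑ j ∈ Finset.range N,
      ρ.real (A i ∩ A j) := by
    simp only [hZ2]
    rw [integral_finsetSum _ fun i _ => integrable_finsetSum _ fun j _ => hindij i j]
    refine Finset.sum_congr rfl fun i _ => ?_
    rw [integral_finsetSum _ fun j _ => hindij i j]
    exact Finset.sum_congr rfl fun j _ => hint i j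
  -- bound of the double sum
  have hpair : ∀ i j, i < j → ρ.real (A i ∩ A j) ≤ p ^ 2 + β (j - i - 1) * p := by
    intro i j hij
    have := hAA i (j - i - 1)
    rwa [show i + (j - i - 1) + 1 = j by omega] at this
  have hrow : ∀ i ∈ Finset.range N, ∑ j ∈ Finset.range N, ρ.real (A i ∩ A j) ≤
      N * p ^ 2 + p + 2 * B * p := by
    intro i hi
    have hiN : i < N := Finset.mem_range.1 hi
    have hsplit : ∀ j ∈ Finset.range N, ρ.real (A i ∩ A j) ≤ p ^ 2 +
        ((if j = i then p else 0) + (if i < j then β (j - i - 1) * p else 0) +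
          (if j < i then β (i - j - 1) * p else 0)) := by
      intro j _
      rcases lt_trichotomy j i with h | h | h
      · have := hpair j i h
        rw [Set.inter_comm] at this
        simp only [h.ne, h, not_lt.2 h.le, if_true, if_false]
        linarith
      · subst h
        have e : ρ.real (A j ∩ A j) = p := by rw [Set.inter_self]; exact hAp j
        simp only [lt_irrefl, if_true, if_false, e]
        nlinarith [sq_nonneg p]
      · have := hpair i j h
        simp only [h.ne', h, not_lt.2 h.le, if_true, if_false]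
        linarith
    refine (Finset.sum_le_sum hsplit).trans ?_
    rw [Finset.sum_add_distrib, Finset.sum_add_distrib, Finset.sum_add_distrib]
    have s1 : ∑ j ∈ Finset.range N, p ^ 2 = N * p ^ 2 := by simp
    have s2 : ∑ j ∈ Finset.range N, (if j = i then p else 0) = p := by
      rw [Finset.sum_ite_eq' _ i]; simp [hiN]
    have s3 : ∑ j ∈ Finset.range N, (if i < j then β (j - i - 1) * p else 0) ≤ B * p := by
      rw [← Finset.sum_filter]
      have : ∑ j ∈ Finset.range N with i < j, β (j - i - 1) * p =
          ∑ k ∈ Finset.range (N - i - 1), β k * p := by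
        refine Finset.sum_bij' (fun j _ => j - i - 1) (fun k _ => k + i + 1) ?_ ?_ ?_ ?_ ?_
        · intro j hj
          simp only [Finset.mem_filter, Finset.mem_range] at hj ⊢
          omega
        · intro k hk
          simp only [Finset.mem_filter, Finset.mem_range] at hk ⊢
          omega
        · intro j hj
          simp only [Finset.mem_filter, Finset.mem_range] at hj
          omega
        · intro k hk
          omega
        · intro j _
          rfl
      rw [this, ← Finset.sum_mul]
      exact mul_le_mul_of_nonneg_right (hsum _) hp.le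
    have s4 : ∑ j ∈ Finset.range N, (if j < i then β (i - j - 1) * p else 0) ≤ B * p := by
      rw [← Finset.sum_filter]
      have : ∑ j ∈ Finset.range N with j < i, β (i - j - 1) * p =
          ∑ k ∈ Finset.range i, β k * p := by
        refine Finset.sum_bij' (fun j _ => i - j - 1) (fun k _ => i - k - 1) ?_ ?_ ?_ ?_ ?_
        · intro j hj
          simp only [Finset.mem_filter, Finset.mem_range] at hj ⊢
          omega
        · intro k hk
          simp only [Finset.mem_filter, Finset.mem_range] at hk ⊢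
          omega
        · intro j hj
          simp only [Finset.mem_filter, Finset.mem_range] at hj
          omega
        · intro k hk
          simp only [Finset.mem_range] at hk
          omega
        · intro j _
          rfl
      rw [this, ← Finset.sum_mul]
      exact mul_le_mul_of_nonneg_right (hsum _) hp.le
    rw [s1, s2]
    linarith
  have hEZ2' : ∫ x, Z x ^ 2 ∂ρ ≤ N * (N * p ^ 2 + p + 2 * B * p) := by
    rw [hEZ2]
    refine (Finset.sum_le_sum hrow).trans (le_of_eq ?_)
    rw [Finset.sum_const, Finset.card_range, nsmul_eq_mul]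
  -- Chebyshev
  set U : Set X := (⋃ n ∈ Finset.range N, A n)ᶜ with hU
  have hUm : MeasurableSet U := (Finset.measurableSet_biUnion _ fun n _ => hA n).compl
  have hZU : ∀ x ∈ U, Z x = 0 := by
    intro x hx
    refine Finset.sum_eq_zero fun n hn => ?_
    have : x ∉ A n := by
      intro h
      exact hx (Set.mem_biUnion hn h)
    simp [this]
  have hcheb : ρ.real U * (N * p) ^ 2 ≤ ∫ x, (Z x - N * p) ^ 2 ∂ρ := by
    have hnn : ∀ x, 0 ≤ (Z x - N * p) ^ 2 := fun x => sq_nonneg _
    have hint2 : Integrable (fun x => (Z x - N * p) ^ 2) ρ := by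
      have : (fun x => (Z x - N * p) ^ 2) = fun x => Z x ^ 2 - 2 * (N * p) * Z x + (N * p) ^ 2 := by
        funext x; ring
      rw [this]
      exact (hZ2int.sub (hZint.const_mul _)).add (integrable_const _)
    calc ρ.real U * (N * p) ^ 2 = ∫ x in U, (Z x - N * p) ^ 2 ∂ρ := by
          rw [setIntegral_congr_fun (g := fun _ => (N * p) ^ 2) hUm]
          · simp
          · intro x hx
            simp [hZU x hx]
      _ ≤ ∫ x, (Z x - N * p) ^ 2 ∂ρ := setIntegral_le_integral hint2 (ae_of_all _ hnn)
  have hvar : ∫ x, (Z x - N * p) ^ 2 ∂ρ = ∫ x, Z x ^ 2 ∂ρ - (N * p) ^ 2 := by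
    have e0 : (fun x => (Z x - N * p) ^ 2) = fun x => Z x ^ 2 - 2 * (N * p) * Z x + (N * p) ^ 2 := by
      funext x; ring
    have i1 : Integrable (fun x => 2 * (N * p) * Z x) ρ := hZint.const_mul _
    have i2 : Integrable (fun x => Z x ^ 2 - 2 * (N * p) * Z x) ρ := hZ2int.sub i1
    have e1 := integral_add (f := fun x => Z x ^ 2 - 2 * (N * p) * Z x)
      (g := fun _ => ((N : ℝ) * p) ^ 2) i2 (integrable_const _)
    have e2 := integral_sub (f := fun x => Z x ^ 2) (g := fun x => 2 * (N * p) * Z x) hZ2int i1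
    have e3 : ∫ x, 2 * (N * p) * Z x ∂ρ = 2 * (N * p) * ∫ x, Z x ∂ρ := integral_const_mul _ _
    rw [e0, e1, e2, e3, hEZ]
    simp
    ring
  rw [hvar] at hcheb
  have hNp : 0 < (N:ℝ) * p := by positivity
  rw [le_div_iff₀ hNp]
  have h1 : ρ.real U * (N * p) * (N * p) ≤ (1 + 2 * B) * (N * p) := by nlinarith
  exact le_of_mul_le_mul_right h1 hNp

end Pool.Agent.Helper22.Berk
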