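import Pool.Agent.Helper22.Berk.Cy
import Pool.Agent.Helper17.Berk.BTop

/-!
# The ramp function of a disc and its push-forward under a rational map
-/

open Polynomial Topology
open Pool.Agent.Helper17.Berk

namespace Pool.Agent.Helper22.Berk

universe u
variable {K : Type u} [NontriviallyNormedField K]

/-- `log max(t₁, |T - a|) - log max(t₀, |T - a|)` over `log t₁ - log t₀`. -/
noncomputable def rampB (a : K) (t₀ t₁ : ℝ) (x : Berk K) : ℝ :=
  (Real.log (max t₁ (x (X - C a))) - Real.log (max t₀ (x (X - C a)))) / (Real.log t₁ - Real.log t₀)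

noncomputable def ramp (a : K) (t₀ t₁ : ℝ) : P1 K → ℝ
  | OnePoint.infty => 0
  | OnePoint.some x => rampB a t₀ t₁ x

@[simp] theorem ramp_infty (a : K) (t₀ t₁ : ℝ) : ramp a t₀ t₁ (OnePoint.infty : P1 K) = 0 := rfl
@[simp] theorem ramp_coe (a : K) (t₀ t₁ : ℝ) (x : Berk K) :
    ramp a t₀ t₁ (x : P1 K) = rampB a t₀ t₁ x := rfl

theorem rampB_eq_zero {a : K} {t₀ t₁ : ℝ} (h01 : t₀ < t₁) {x : Berk K} (h : t₁ ≤ x (X - C a)) :
    rampB a t₀ t₁ x = 0 := by
  rw [rampB, max_eq_right h, max_eq_right (h01.le.trans h), sub_self, zero_div]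

theorem rampB_eq_one {a : K} {t₀ t₁ : ℝ} (h0 : 0 < t₀) (h01 : t₀ < t₁) {x : Berk K}
    (h : x (X - C a) ≤ t₀) : rampB a t₀ t₁ x = 1 := by
  rw [rampB, max_eq_left h, max_eq_left (h.trans h01.le)]
  refine div_self (_root_.sub_ne_zero.2 ?_)
  exact (Real.log_lt_log h0 h01).ne'

theorem rampB_nonneg {a : K} {t₀ t₁ : ℝ} (h0 : 0 < t₀) (h01 : t₀ < t₁) (x : Berk K) :
    0 ≤ rampB a t₀ t₁ x := by
  refine div_nonneg (sub_nonneg.2 ?_) (sub_nonneg.2 (Real.log_le_log h0 h01.le))
  exact Real.log_le_log (lt_of_lt_of_le h0 (le_max_left _ _)) (max_le_max h01.le le_rfl)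

theorem rampB_le_one {a : K} {t₀ t₁ : ℝ} (h0 : 0 < t₀) (h01 : t₀ < t₁) (x : Berk K) :
    rampB a t₀ t₁ x ≤ 1 := by
  have hl := Real.log_lt_log h0 h01
  rw [rampB, div_le_one (by linarith)]
  rcases le_total (x (X - C a)) t₀ with h | h
  · rw [max_eq_left h, max_eq_left (h.trans h01.le)]
  · rcases le_total (x (X - C a)) t₁ with h' | h'
    · rw [max_eq_left h', max_eq_right h]
      have := Real.log_le_log h0 h
      linarith
    · rw [max_eq_right h', max_eq_right h]
      linarith

theorem continuous_rampB (a : K) {t₀ t₁ : ℝ} (h0 : 0 < t₀) (h01 : t₀ < t₁) :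
    Continuous (rampB a t₀ t₁ : Berk K → ℝ) := by
  have hc := Berk.continuous_eval (K := K) (X - C a)
  refine Continuous.div_const (Continuous.sub ?_ ?_) _
  · refine Continuous.log (continuous_const.max hc) fun x => ?_
    exact (lt_of_lt_of_le (h0.trans h01) (le_max_left _ _)).ne'
  · refine Continuous.log (continuous_const.max hc) fun x => ?_
    exact (lt_of_lt_of_le h0 (le_max_left _ _)).ne'

theorem X_le_of (a : K) (x : Berk K) {M : ℝ} (h : max M ‖a‖ < x X) : M < x (X - C a) := by
  by_contra hcon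
  push Not at hcon
  have h1 : x X ≤ max (x (X - C a)) ‖a‖ := by
    have := x.map_add_le (X - C a) (C a)
    simpa using this
  have h2 := h1.trans (max_le_max hcon le_rfl)
  exact absurd h2 (not_le.2 h)

theorem continuous_ramp (a : K) {t₀ t₁ : ℝ} (h0 : 0 < t₀) (h01 : t₀ < t₁) :
    Continuous (ramp a t₀ t₁ : P1 K → ℝ) := by
  refine continuous_P1 (continuous_rampB a h0 h01) fun V hV => ?_
  refine ⟨max t₁ ‖a‖, fun x hx => ?_⟩
  have h := X_le_of a x hx
  rw [ramp_coe, rampB_eq_zero h01 h.le]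
  exact mem_of_mem_nhds hV

/-- The push-forward of the ramp. -/
noncomputable def push (f : RatMap K) (a : K) (t₀ t₁ : ℝ) (y : P1 K) : ℝ :=
  (Real.log (tv (cP f a y) t₁) - Real.log (tv (cP f a y) t₀)) / (Real.log t₁ - Real.log t₀)

theorem continuous_push (f : RatMap K) (hf : 1 ≤ f.deg) (a : K) {t₀ t₁ : ℝ} (h0 : 0 < t₀)
    (h01 : t₀ < t₁) : Continuous (push f a t₀ t₁ : P1 K → ℝ) := by
  have h1 := h0.trans h01
  refine continuous_P1 ?_ fun V hV => ?_
  · refine Continuous.div_const (Continuous.sub ?_ ?_) _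
    · exact Continuous.log (continuous_tv_cy f hf a h1.le) fun y =>
        (tv_pos (TP_cy f hf a y) h1).ne'
    · exact Continuous.log (continuous_tv_cy f hf a h0.le) fun y =>
        (tv_pos (TP_cy f hf a y) h0).ne'
  · obtain ⟨M₀, hM₀⟩ := tv_cy_large f hf a h0
    obtain ⟨M₁, hM₁⟩ := tv_cy_large f hf a h1
    refine ⟨max 0 (max M₀ M₁), fun y hy => ?_⟩
    have hy0 : 0 < y X := lt_of_le_of_lt (le_max_left _ _) hy
    have hyM₀ : M₀ < y X := lt_of_le_of_lt ((le_max_left _ _).trans (le_max_right _ _)) hy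
    have hyM₁ : M₁ < y X := lt_of_le_of_lt ((le_max_right _ _).trans (le_max_right _ _)) hy
    have hQ := TP_co (Q_ne_zero f hf) a
    have e : push f a t₀ t₁ (y : P1 K) = push f a t₀ t₁ OnePoint.infty := by
      simp only [push, cP_coe, cP_infty]
      rw [hM₀ y hyM₀, hM₁ y hyM₁, Real.log_mul hy0.ne' (tv_pos hQ h1).ne',
        Real.log_mul hy0.ne' (tv_pos hQ h0).ne']
      ring
    rw [e]
    exact mem_of_mem_nhds hV

variable [IsUltrametricDist K]

/-- ramp sum over the roots of a polynomial. -/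
theorem sum_roots_ramp [IsAlgClosed K] {F : K[X]} (hF : F ≠ 0) (a : K) {t₀ t₁ : ℝ} (h0 : 0 < t₀)
    (h01 : t₀ < t₁) :
    (F.roots.map (fun z => rampB a t₀ t₁ (pt z))).sum =
      (Real.log (tv (co F a) t₁) - Real.log (tv (co F a) t₀)) / (Real.log t₁ - Real.log t₀) := by
  have key : ∀ t, 0 < t → Real.log (tv (co F a) t) =
      Real.log ‖F.leadingCoeff‖ + (F.roots.map (fun z => Real.log (max t ‖z - a‖))).sum := by
    intro t ht
    have h1 : tv (co F a) t = gn F a t := rfl
    rw [h1, gn_eq_prod F a ht.le]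
    have hlc : ‖F.leadingCoeff‖ ≠ 0 := by simpa using hF
    have hprod : ∀ s : Multiset K, (s.map (fun z => max t ‖z - a‖)).prod ≠ 0 ∧
        Real.log (s.map (fun z => max t ‖z - a‖)).prod =
          (s.map (fun z => Real.log (max t ‖z - a‖))).sum := by
      intro s
      induction s using Multiset.induction_on with
      | empty => simp
      | cons z s ih =>
        have hz : max t ‖z - a‖ ≠ 0 := (lt_of_lt_of_le ht (le_max_left _ _)).ne'
        simp only [Multiset.map_cons, Multiset.prod_cons, Multiset.sum_cons]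
        refine ⟨mul_ne_zero hz ih.1, ?_⟩
        rw [Real.log_mul hz ih.1, ih.2]
    rw [Real.log_mul hlc (hprod _).1, (hprod _).2]
  rw [key t₁ (h0.trans h01), key t₀ h0]
  have h2 : ∀ s : Multiset K, (s.map (fun z => rampB a t₀ t₁ (pt z))).sum =
      ((s.map (fun z => Real.log (max t₁ ‖z - a‖))).sum -
        (s.map (fun z => Real.log (max t₀ ‖z - a‖))).sum) / (Real.log t₁ - Real.log t₀) := by
    intro s
    induction s using Multiset.induction_on with
    | empty => simp
    | cons z s ih =>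
      simp only [Multiset.map_cons, Multiset.sum_cons]
      rw [ih, rampB, pt_lin]
      ring
  rw [h2]
  congr 1
  ring

/-- the push-forward at classical points is the sum over the fibre. -/
theorem sum_fib_ramp [IsAlgClosed K] (f : RatMap K) (hf : 1 ≤ f.deg) (a : K) {t₀ t₁ : ℝ}
    (h0 : 0 < t₀) (h01 : t₀ < t₁) (w : OnePoint K) :
    ((f.fib w).map (fun z => ramp a t₀ t₁ (emb z))).sum = push f a t₀ t₁ (emb w) := by
  induction w using OnePoint.rec with
  | infty =>
    have e : f.fib OnePoint.infty = f.Q.roots.map OnePoint.some +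
        Multiset.replicate (f.deg - f.Q.natDegree) OnePoint.infty := by
      simp [RatMap.fib, Multiset.bind_singleton]
    rw [e]
    simp only [Multiset.map_add, Multiset.map_map, Multiset.map_replicate,
      Multiset.sum_add, Multiset.sum_replicate, Function.comp_def, emb_infty, emb_coe,
      ramp_infty, ramp_coe, smul_zero, add_zero]
    rw [sum_roots_ramp (Q_ne_zero f hf) a h0 h01]
    rfl
  | coe w =>
    have e : f.fib (w : OnePoint K) = (f.P - C w * f.Q).roots.map OnePoint.some +
        Multiset.replicate (f.deg - (f.P - C w * f.Q).natDegree) OnePoint.infty := by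
      simp [RatMap.fib, Multiset.bind_singleton]
    rw [e]
    simp only [Multiset.map_add, Multiset.map_map, Multiset.map_replicate,
      Multiset.sum_add, Multiset.sum_replicate, Function.comp_def, emb_infty, emb_coe,
      ramp_infty, ramp_coe, smul_zero, add_zero]
    rw [sum_roots_ramp (sub_ne_zero f hf w) a h0 h01, push, cP_coe, cy_pt]

end Pool.Agent.Helper22.Berk
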